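import Mathlib

/-!
# CF, part DEN: the law keeps logarithmic density (Mathlib only)
-/

set_option autoImplicit false

namespace Pool.Agent.Helper41.CF.DEN

open Filter Topology

lemma core (cA cS : ℕ → ℝ) (L : ℝ) (hL : 0 < L)
    (h : Tendsto (fun N : ℕ => cA N * Real.log N / cS N) atTop (𝓝 L))
    (hS : ∃ B : ℕ, ∀ᶠ N : ℕ in atTop, (N : ℝ) / (Real.log N) ^ B ≤ cS N) :
    ∃ B : ℕ, ∀ᶠ N : ℕ in atTop, (N : ℝ) / (Real.log N) ^ B ≤ cA N := by
  obtain ⟨B, hB⟩ := hS
  have hlog : Tendsto (fun N : ℕ => Real.log N) atTop atTop :=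
    Real.tendsto_log_atTop.comp tendsto_natCast_atTop_atTop
  refine ⟨B + 2, ?_⟩
  filter_upwards [hB, h.eventually (lt_mem_nhds (half_lt_self hL)),
    hlog.eventually_ge_atTop (2 / L), hlog.eventually_gt_atTop 0, eventually_gt_atTop 0]
    with N h1 h2 h3 h4 h5
  have hN : (0 : ℝ) < N := by exact_mod_cast h5
  have hS : 0 < cS N := lt_of_lt_of_le (by positivity) h1
  rw [lt_div_iff₀ hS] at h2
  -- `cA log > L/2 cS`
  have h6 : 1 ≤ L / 2 * Real.log N := by
    rw [div_le_iff₀ hL] at h3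
    linarith
  have h7 : (N : ℝ) ≤ cS N * (Real.log N) ^ B := by
    rwa [div_le_iff₀ (by positivity)] at h1
  rw [div_le_iff₀ (by positivity)]
  calc (N : ℝ) ≤ cS N * (Real.log N) ^ B := h7
    _ ≤ (cS N * (Real.log N) ^ B) * (L / 2 * Real.log N) :=
        le_mul_of_one_le_right (by positivity) h6
    _ = (L / 2 * cS N) * (Real.log N) ^ (B + 1) := by ring
    _ ≤ (cA N * Real.log N) * (Real.log N) ^ (B + 1) :=
        mul_le_mul_of_nonneg_right h2.le (by positivity)
    _ = cA N * (Real.log N) ^ (B + 2) := by ring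

end Pool.Agent.Helper41.CF.DEN
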