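import Mathlib
import Pool.Agent.Helper79.CF.Spec2
import Pool.Agent.Helper41.CF.DEN0

/-!
# CF, part DEN: the law keeps logarithmic density
-/

set_option autoImplicit false

namespace Pool.Agent.Helper41.CF.DEN

open Filter Topology

theorem main : Pool.Agent.Helper79.CF.S_DEN := by
  intro t f S hd hS hL
  have hd' : (0 : ℝ) < 1 / (f.natDegree : ℝ) := by
    have : (0 : ℝ) < (f.natDegree : ℝ) := by exact_mod_cast hd
    positivity
  exact core _ _ _ hd' hL hS

end Pool.Agent.Helper41.CF.DEN
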