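import Mathlib

/-!
# CF, part SCL: from sparse times to all times (Mathlib only)
-/

set_option autoImplicit false

namespace Pool.Agent.Helper41.CF.SCL

open Finset Filter Topology

lemma tendsto_natlog : Tendsto (fun N : ℕ => Nat.log 2 N) atTop atTop := by
  rw [tendsto_atTop]
  intro b
  filter_upwards [eventually_ge_atTop (2 ^ b)] with N hN
  exact Nat.le_log_of_pow_le one_lt_two hN

lemma tendsto_B (C : ℝ) (K : ℕ) : Tendsto (fun N : ℕ => (Real.log N)⁻¹ + (Real.log N) ^ K / N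
    + 2 * C * ((Real.log N)⁻¹) ^ 2 + 2 * C * ((Real.log N) ^ (K + 1) / N)) atTop (𝓝 0) := by
  have hlog : Tendsto (fun N : ℕ => Real.log N) atTop atTop :=
    Real.tendsto_log_atTop.comp tendsto_natCast_atTop_atTop
  have hinv : Tendsto (fun N : ℕ => (Real.log N)⁻¹) atTop (𝓝 0) :=
    tendsto_inv_atTop_zero.comp hlog
  have hpow : ∀ k : ℕ, Tendsto (fun N : ℕ => (Real.log N) ^ k / (N : ℝ)) atTop (𝓝 0) := fun k =>
    (Real.isLittleO_pow_log_id_atTop (n := k)).tendsto_div_nhds_zero.comp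
      tendsto_natCast_atTop_atTop
  have h := ((hinv.add (hpow K)).add ((hinv.pow 2).const_mul (2 * C))).add
    ((hpow (K + 1)).const_mul (2 * C))
  simpa using h

/-- the sparse time `M ≤ N` -/
lemma time (a N D : ℕ) (hD : 0 < D) (h1 : 2 ^ a ≤ N) (h2 : N < 2 ^ (a + 1)) :
    ∃ r ≤ D, 2 ^ a + 2 ^ a * r / D ≤ N ∧
      (N : ℝ) - (2 ^ a + 2 ^ a * r / D : ℕ) ≤ 2 ^ a / D + 1 := by
  have hp : 0 < 2 ^ a := by positivity
  have hp1 : 2 ^ (a + 1) = 2 * 2 ^ a := by ring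
  obtain ⟨X, rfl⟩ := Nat.exists_eq_add_of_le h1
  have hX : X ≤ 2 ^ a := by omega
  refine ⟨X * D / 2 ^ a, ?_, ?_, ?_⟩
  · exact Nat.div_le_of_le_mul (Nat.mul_le_mul_right D hX)
  · have h3 : 2 ^ a * (X * D / 2 ^ a) ≤ X * D := Nat.mul_div_le _ _
    have h4 : 2 ^ a * (X * D / 2 ^ a) / D ≤ X :=
      Nat.div_le_of_le_mul (by rw [mul_comm D X]; exact h3)
    omega
  · set r : ℕ := X * D / 2 ^ a with hr
    set q : ℕ := 2 ^ a * r / D with hq
    have h3 : X * D < 2 ^ a * (r + 1) := Nat.lt_mul_div_succ _ hp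
    have h4 : 2 ^ a * r < D * (q + 1) := Nat.lt_mul_div_succ _ hD
    have h5 : (X : ℝ) * D < 2 ^ a * (r + 1) := by exact_mod_cast h3
    have h6 : (2 : ℝ) ^ a * r < D * (q + 1) := by exact_mod_cast h4
    have hD' : (0 : ℝ) < D := by exact_mod_cast hD
    have h7 : (X : ℝ) ≤ q + 1 + 2 ^ a / D := by
      have : (X : ℝ) * D ≤ (q + 1 + 2 ^ a / D) * D := by
        rw [add_mul, div_mul_cancel₀ _ hD'.ne']
        nlinarith
      exact le_of_mul_le_mul_right this hD'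
    push_cast
    linarith

lemma sumN (w : ℕ → ℂ) (B : ℝ) {M N : ℕ} (hMN : M ≤ N) (hw : ∀ n ≤ N, ‖w n‖ ≤ B) :
    ‖∑ n ∈ Icc 1 N, w n‖ ≤ ‖∑ n ∈ Icc 1 M, w n‖ + ((N : ℝ) - M) * B := by
  have e : ∀ k : ℕ, Icc 1 k = Ioc 0 k := fun k => by ext x; simp; omega
  rw [e, e, ← sum_Ioc_consecutive w (Nat.zero_le M) hMN]
  refine (norm_add_le _ _).trans (add_le_add le_rfl ?_)
  refine (norm_sum_le _ _).trans ?_
  refine (sum_le_sum fun n hn => hw n (mem_Ioc.1 hn).2).trans ?_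
  rw [sum_const, Nat.card_Ioc, nsmul_eq_mul, Nat.cast_sub hMN]

lemma fin {L C x : ℝ} {K : ℕ} {S R : ℝ} (hL : 0 < L) (hx : 0 < x) (hC : 0 ≤ C)
    (hS : S ≤ x / L ^ (K + 1) + 1 + R * (C * (2 * L))) (hR : R ≤ x / L ^ (K + 3) + 1) :
    L ^ K / x * S ≤ L⁻¹ + L ^ K / x + 2 * C * (L⁻¹) ^ 2 + 2 * C * (L ^ (K + 1) / x) := by
  have h1 : S ≤ x / L ^ (K + 1) + 1 + (x / L ^ (K + 3) + 1) * (C * (2 * L)) := by
    have := mul_le_mul_of_nonneg_right hR (show 0 ≤ C * (2 * L) by positivity)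
    linarith
  refine (mul_le_mul_of_nonneg_left h1 (by positivity)).trans (le_of_eq ?_)
  field_simp
  ring

theorem core (w : ℕ → ℂ) (C : ℝ) (hw : ∀ n : ℕ, ‖w n‖ ≤ C * Real.log (n + 2))
    (hs : ∀ K : ℕ, ∀ᶠ a : ℕ in atTop, ∀ r ≤ (a + 1) ^ (K + 2),
      ‖∑ n ∈ Icc 1 (2 ^ a + 2 ^ a * r / (a + 1) ^ (K + 2)), w n‖ ≤
        ((2 ^ a + 2 ^ a * r / (a + 1) ^ (K + 2) : ℕ) : ℝ) /
          ((Nat.log 2 (2 ^ a + 2 ^ a * r / (a + 1) ^ (K + 2)) : ℝ) + 1) ^ K + 1) (K : ℕ) :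
    Tendsto (fun N : ℕ => (Real.log N) ^ K / N * ‖∑ n ∈ Icc 1 N, w n‖) atTop (𝓝 0) := by
  have hC : 0 ≤ C := by
    have h1 := (norm_nonneg _).trans (hw 0)
    have h2 : 0 < Real.log (((0 : ℕ) : ℝ) + 2) := Real.log_pos (by norm_num)
    exact nonneg_of_mul_nonneg_left h1 h2
  refine squeeze_zero' (Filter.Eventually.of_forall fun N => ?_) ?_ (tendsto_B C K)
  · have := Real.log_natCast_nonneg N
    positivity
  filter_upwards [tendsto_natlog.eventually (hs (K + 1)), eventually_ge_atTop 3] with N h1 hN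
  set a : ℕ := Nat.log 2 N with ha
  have hN0 : N ≠ 0 := by omega
  have h2a : 2 ^ a ≤ N := Nat.pow_log_le_self 2 hN0
  have h2b : N < 2 ^ (a + 1) := Nat.lt_pow_succ_log_self one_lt_two N
  obtain ⟨r, hr, hMN, hrest⟩ := time a N ((a + 1) ^ (K + 1 + 2)) (by positivity) h2a h2b
  have h3 := h1 r hr
  set M : ℕ := 2 ^ a + 2 ^ a * r / (a + 1) ^ (K + 1 + 2) with hM
  have h2M : 2 ^ a ≤ M := by rw [hM]; exact Nat.le_add_right _ _
  have hlogM : Nat.log 2 M = a := by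
    apply le_antisymm
    · exact Nat.log_mono_right hMN
    · exact Nat.le_log_of_pow_le one_lt_two h2M
  rw [hlogM] at h3
  have hNr : (3 : ℝ) ≤ N := by exact_mod_cast hN
  have hL : 0 < Real.log N := Real.log_pos (by linarith)
  have hx : (0 : ℝ) < N := by linarith
  have haL : Real.log N ≤ (a : ℝ) + 1 := by
    have h4 : (N : ℝ) ≤ 2 ^ (a + 1) := by exact_mod_cast h2b.le
    have h5 := Real.log_le_log hx h4
    rw [Real.log_pow] at h5
    have h6 : Real.log 2 ≤ 1 := by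
      have := Real.log_two_lt_d9
      linarith
    push_cast at h5
    have h7 : (0 : ℝ) ≤ (a : ℝ) + 1 := by positivity
    nlinarith
  have hlog2 : Real.log ((N : ℝ) + 2) ≤ 2 * Real.log N := by
    have h4 : (N : ℝ) + 2 ≤ (N : ℝ) ^ 2 := by nlinarith
    have h5 := Real.log_le_log (by linarith) h4
    rw [Real.log_pow] at h5
    exact_mod_cast h5
  have hwN : ∀ n ≤ N, ‖w n‖ ≤ C * (2 * Real.log N) := by
    intro n hn
    refine (hw n).trans (mul_le_mul_of_nonneg_left ?_ hC)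
    refine le_trans (Real.log_le_log (by positivity) ?_) hlog2
    have : (n : ℝ) ≤ N := by exact_mod_cast hn
    linarith
  have h4 := sumN w _ hMN hwN
  have hMr : (M : ℝ) ≤ N := by exact_mod_cast hMN
  have h5 : (M : ℝ) / ((a : ℝ) + 1) ^ (K + 1) ≤ N / (Real.log N) ^ (K + 1) := by
    apply div_le_div₀ hx.le hMr (by positivity)
    exact pow_le_pow_left₀ hL.le haL _
  have h6 : (2 : ℝ) ^ a / (((a + 1) ^ (K + 1 + 2) : ℕ) : ℝ) ≤ N / (Real.log N) ^ (K + 3) := by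
    push_cast
    apply div_le_div₀ hx.le (by exact_mod_cast h2a) (by positivity)
    exact pow_le_pow_left₀ hL.le haL _
  refine fin hL hx hC (R := (N : ℝ) - M) ?_ ?_
  · linarith
  · linarith

end Pool.Agent.Helper41.CF.SCL
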