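import Pool.Agent.Helper79.CF.Spec
import Pool.Agent.Helper41.CF.SCL0

/-!
# CF, part SCL
-/

set_option autoImplicit false

namespace Pool.Agent.Helper41.CF.SCL

theorem main : Pool.Agent.Helper79.CF.S_SCL := fun w C hw hs K => core w C hw hs K

end Pool.Agent.Helper41.CF.SCL
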